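import Pool.Agent.Y266.LA.Stm

/-!
# A monomial which is an L-atom has coprime exponents
-/

set_option autoImplicit false

open Filter Topology
open Pool.Agent.Results.MP_cc4673_an.ProductIsLAtom

namespace Pool.Agent.Y266.LA

theorem mono_differentiable {n : ℕ} (b : Fin n → ℕ) : Differentiable ℂ (mono b) := by
  have key : ∀ s : Finset (Fin n), Differentiable ℂ (fun z : Cn n => ∏ i ∈ s, (z i) ^ b i) := by
    intro s
    induction s using Finset.induction_on with
    | empty => simp
    | insert i s hi ih =>
      simp only [Finset.prod_insert hi]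
      intro z
      have h1 : DifferentiableAt ℂ (fun z : Cn n => z i) z :=
        (EuclideanSpace.proj (𝕜 := ℂ) i).differentiableAt
      exact (h1.pow (b i)).mul (ih z)
  exact key Finset.univ

theorem mono_surjective {n : ℕ} (b : Fin n → ℕ) (j : Fin n) (hj : b j ≠ 0) :
    Function.Surjective (mono b) := by
  intro c
  obtain ⟨w, hw⟩ := IsAlgClosed.exists_pow_nat_eq c (Nat.pos_of_ne_zero hj)
  refine ⟨WithLp.toLp 2 (fun i => if i = j then w else 1), ?_⟩
  unfold mono
  rw [Finset.prod_eq_single j]
  · simp [hw]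
  · intro i _ hi
    simp [hi]
  · intro h
    exact absurd (Finset.mem_univ j) h

theorem conv : S_CONV := by
  intro n a hL
  obtain ⟨-, ⟨x, y, hxy⟩, hL⟩ := hL
  set d := Finset.univ.gcd a with hd
  have hd0 : d ≠ 0 := by
    intro h0
    rw [hd, Finset.gcd_eq_zero_iff] at h0
    apply hxy
    unfold mono
    apply Finset.prod_congr rfl
    intro i hi
    rw [h0 i hi, pow_zero, pow_zero]
  by_contra hd1
  have hd2 : 1 < d := by omega
  have hdvd : ∀ i, d ∣ a i := fun i => Finset.gcd_dvd (Finset.mem_univ i)
  choose b hb using hdvd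
  have hpow : ∀ z : Cn n, mono a z = mono b z ^ d := by
    intro z
    unfold mono
    rw [← Finset.prod_pow]
    apply Finset.prod_congr rfl
    intro i _
    rw [hb i, ← pow_mul, mul_comm]
  have hj : ∃ j, b j ≠ 0 := by
    by_contra hcon
    push Not at hcon
    apply hxy
    unfold mono
    apply Finset.prod_congr rfl
    intro i _
    rw [hb i, hcon i, mul_zero, pow_zero, pow_zero]
  obtain ⟨j, hj⟩ := hj
  have hsb := mono_surjective b j hj
  have hpair : IsOrderedLPair (mono b) (mono a) := by
    intro z _ hz K hK _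
    have hK' : IsCompact {w : ℂ | w ^ d ∈ K} := by
      apply Metric.isCompact_of_isClosed_isBounded
      · exact hK.isClosed.preimage (continuous_id.pow d)
      · obtain ⟨B, hB⟩ := hK.isBounded.exists_norm_le
        rw [isBounded_iff_forall_norm_le]
        refine ⟨max 1 B, ?_⟩
        intro w hw
        have h1 := hB _ hw
        rw [norm_pow] at h1
        rcases le_or_gt ‖w‖ 1 with h2 | h2
        · exact h2.trans (le_max_left _ _)
        · refine le_trans ?_ (le_max_right _ _)
          refine le_trans ?_ h1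
          calc ‖w‖ = ‖w‖ ^ 1 := (pow_one _).symm
            _ ≤ ‖w‖ ^ d := pow_le_pow_right₀ h2.le (by omega)
    have h1 := hz _ hK' (fun w _ => hsb w)
    refine h1.subset ?_
    intro k hk
    have hk' : mono a (z k) ∈ K := hk
    rw [hpow] at hk'
    exact hk'
  obtain ⟨φ, -, hφ⟩ := hL (mono b) (mono_differentiable b) hpair
  obtain ⟨z1, hz1⟩ := hsb 1
  have hprim := Complex.isPrimitiveRoot_exp d hd0
  obtain ⟨z2, hz2⟩ := hsb (Complex.exp (2 * Real.pi * Complex.I / d))
  have e1 : mono a z1 = 1 := by rw [hpow, hz1, one_pow]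
  have e2 : mono a z2 = 1 := by rw [hpow, hz2, hprim.pow_eq_one]
  have h1 := hφ z1
  have h2 := hφ z2
  rw [e1, hz1] at h1
  rw [e2, hz2] at h2
  exact hprim.ne_one hd2 (h2.trans h1.symm)

end Pool.Agent.Y266.LA
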