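import Pool.Agent.Results.MP_cc4673_an.ProductIsLAtom

/-!
# L-atoms on `ℂⁿ`: statements of the parts

`Cn n`, `IsLAtom`, `IsFirstComponent`, `IsOrderedLPair`, `HasLProperty` are the definitions of the
starting file.
-/

set_option autoImplicit false

open Pool.Agent.Results.MP_cc4673_an.ProductIsLAtom

namespace Pool.Agent.Y266.LA

/-- the monomial `z ↦ ∏ z_i ^ a_i` -/
noncomputable def mono {n : ℕ} (a : Fin n → ℕ) (z : Cn n) : ℂ := ∏ i, z i ^ a i

/-- The first component of an automorphism is an L-atom, for every `n`. -/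
def S_FIRST : Prop :=
  ∀ (n : ℕ) (f : Cn n → ℂ), IsFirstComponent f → IsLAtom f

/-- A monomial with coprime exponents is an L-atom. -/
def S_GCD : Prop :=
  ∀ (n : ℕ) (a : Fin n → ℕ), Finset.univ.gcd a = 1 → IsLAtom (mono a)

/-- A monomial which is an L-atom has coprime exponents. -/
def S_CONV : Prop :=
  ∀ (n : ℕ) (a : Fin n → ℕ), IsLAtom (mono a) → Finset.univ.gcd a = 1

/-- A monomial is the first component of an automorphism if and only if it is a coordinate. -/
def S_COORD : Prop :=
  ∀ (n : ℕ) (a : Fin n → ℕ), IsFirstComponent (mono a) ↔ ∑ i, a i = 1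

end Pool.Agent.Y266.LA
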