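import Mathlib
import Pool.Agent.Y266.LA.Stm

/-! # Project LA: monomials which are first components of automorphisms (helper182) -/

set_option autoImplicit false

open Filter Topology
open Pool.Agent.Results.MP_cc4673_an.ProductIsLAtom

namespace Pool.Agent.Y266.LA

theorem norm_mono_le {n : ℕ} (a : Fin n → ℕ) (z : Cn n) : ‖mono a z‖ ≤ ‖z‖ ^ (∑ i, a i) := by
  unfold mono
  rw [norm_prod, ← Finset.prod_pow_eq_pow_sum]
  refine Finset.prod_le_prod (fun i _ => norm_nonneg _) fun i _ => ?_
  rw [norm_pow]
  exact pow_le_pow_left₀ (norm_nonneg _) (PiLp.norm_apply_le z i) _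

theorem coord : S_COORD := by
  intro n a
  constructor
  · rintro ⟨F, i, -, ⟨hFd, hFi, hFs⟩, hF⟩
    by_contra hne
    rcases Nat.lt_or_ge (∑ i, a i) 1 with h0 | h1
    · have h0' : ∑ i, a i = 0 := by omega
      obtain ⟨z, hz⟩ := hFs 0
      have h2 := hF z
      have h3 : mono a z = 1 := by
        unfold mono
        refine Finset.prod_eq_one fun k _ => ?_
        have : a k = 0 := by
          have := Finset.sum_eq_zero_iff.1 h0' k (Finset.mem_univ k)
          exact this
        rw [this, pow_zero]
      rw [hz, h3] at h2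
      simp at h2
    · have h2' : 1 < ∑ i, a i := by omega
      have hd : HasFDerivAt (mono a) (0 : Cn n →L[ℂ] ℂ) 0 := by
        refine Asymptotics.IsBigO.hasFDerivAt (n := ∑ i, a i) ?_ h2'
        refine Asymptotics.IsBigO.of_bound 1 (Eventually.of_forall fun z => ?_)
        rw [sub_zero, one_mul, norm_pow, norm_norm]
        exact norm_mono_le a z
      have hinj := Pool.Agent.Helper540.osgood n (Cn n) (Cn n) (by simp) (by simp)
        Set.univ isOpen_univ F hFd.differentiableOn hFi.injOn 0 (Set.mem_univ _)
      have hsur : Function.Surjective (fderiv ℂ F 0) :=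
        (LinearMap.injective_iff_surjective (f := (fderiv ℂ F 0 : Cn n →ₗ[ℂ] Cn n))).1 hinj
      obtain ⟨v, hv⟩ := hsur (EuclideanSpace.single i (1 : ℂ))
      have h1 : HasFDerivAt (fun z => F z i)
          ((EuclideanSpace.proj (𝕜 := ℂ) i).comp (fderiv ℂ F 0)) 0 :=
        (EuclideanSpace.proj (𝕜 := ℂ) i).hasFDerivAt.comp 0 (hFd 0).hasFDerivAt
      have h2 : (fun z => F z i) = mono a := funext hF
      rw [h2] at h1
      have h4 := h1.unique hd
      have h5 := congrArg (fun L : Cn n →L[ℂ] ℂ => L v) h4
      simp [hv] at h5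
  · intro hs
    have hj : ∃ j, a j ≠ 0 := by
      by_contra h
      push Not at h
      rw [Finset.sum_eq_zero fun i _ => h i] at hs
      omega
    obtain ⟨j, hj⟩ := hj
    have hsplit := Finset.add_sum_erase Finset.univ a (Finset.mem_univ j)
    have haj : a j = 1 := by omega
    have hrest : ∑ k ∈ Finset.univ.erase j, a k = 0 := by omega
    have ha0 : ∀ k, k ≠ j → a k = 0 := by
      intro k hk
      exact Finset.sum_eq_zero_iff.1 hrest k (Finset.mem_erase.2 ⟨hk, Finset.mem_univ k⟩)
    have hmono : ∀ z : Cn n, mono a z = z j := by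
      intro z
      unfold mono
      rw [Finset.prod_eq_single j]
      · rw [haj, pow_one]
      · intro k _ hk
        rw [ha0 k hk, pow_zero]
      · intro h
        exact absurd (Finset.mem_univ j) h
    have hn : 0 < n := Fin.pos j
    set i0 : Fin n := ⟨0, hn⟩ with hi0
    let e := LinearIsometryEquiv.piLpCongrLeft 2 ℂ ℂ (Equiv.swap i0 j)
    refine ⟨e, i0, rfl, ⟨e.differentiable, e.injective, e.surjective⟩, fun z => ?_⟩
    rw [hmono]
    simp [e, Equiv.piCongrLeft']

end Pool.Agent.Y266.LA
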