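import Pool.Agent.Y266.LA.Stm

/-!
# Monomials with coprime exponents are L-atoms
-/

set_option autoImplicit false

open Filter Topology Finset
open Pool.Agent.Results.MP_cc4673_an.ProductIsLAtom

namespace Pool.Agent.Y266.LA

theorem bezout {ι : Type} (s : Finset ι) (a : ι → ℕ) :
    ∃ m : ι → ℤ, ∑ i ∈ s, (a i : ℤ) * m i = ((s.gcd a : ℕ) : ℤ) := by
  classical
  induction s using Finset.induction_on with
  | empty => exact ⟨fun _ => 0, by simp⟩
  | insert i s hi ih =>
    obtain ⟨m, hm⟩ := ih
    refine ⟨fun j => if j = i then Nat.gcdA (a i) (s.gcd a) else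
      m j * Nat.gcdB (a i) (s.gcd a), ?_⟩
    rw [sum_insert hi, gcd_insert]
    have h1 : ∑ j ∈ s, (a j : ℤ) * (if j = i then Nat.gcdA (a i) (s.gcd a) else
        m j * Nat.gcdB (a i) (s.gcd a)) = (∑ j ∈ s, (a j : ℤ) * m j) *
          Nat.gcdB (a i) (s.gcd a) := by
      rw [sum_mul]
      refine sum_congr rfl fun j hj => ?_
      have hji : j ≠ i := fun h => hi (h ▸ hj)
      rw [if_neg hji]
      ring
    rw [h1, hm]
    simp only [if_true]
    have h2 := Nat.gcd_eq_gcd_ab (a i) (s.gcd a)
    have h3 : (GCDMonoid.gcd (a i) (s.gcd a) : ℕ) = Nat.gcd (a i) (s.gcd a) := rfl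
    rw [h3, h2]

theorem mono_diff {n : ℕ} (a : Fin n → ℕ) : Differentiable ℂ (mono a) := by
  have h : ContDiff ℂ 1 (mono a) := by
    unfold mono
    exact contDiff_prod fun i _ => ((EuclideanSpace.proj (𝕜 := ℂ) i).contDiff).pow _
  exact h.differentiable (by norm_num)

theorem gcd : S_GCD := by
  intro n a ha
  obtain ⟨m, hm⟩ := bezout (univ : Finset (Fin n)) a
  rw [ha] at hm
  have hm' : ∑ i, (a i : ℤ) * m i = 1 := by exact_mod_cast hm
  obtain ⟨i0, hi0⟩ : ∃ i, a i ≠ 0 := by
    by_contra hcon
    push Not at hcon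
    have : (univ : Finset (Fin n)).gcd a = 0 := by
      rw [Finset.gcd_eq_zero_iff]
      exact fun i _ => hcon i
    omega
  let P : ℂ → Cn n := fun c => WithLp.toLp 2 fun i => c ^ m i
  have hPi : ∀ c i, P c i = c ^ m i := fun c i => rfl
  have hPα : ∀ c, c ≠ 0 → mono a (P c) = c := by
    intro c hc
    unfold mono
    simp only [hPi]
    have h1 : ∀ i, (c ^ m i) ^ a i = c ^ ((a i : ℤ) * m i) := by
      intro i
      rw [← zpow_natCast, ← zpow_mul, mul_comm]
    simp only [h1]
    have h2 : ∀ s : Finset (Fin n), ∏ i ∈ s, c ^ ((a i : ℤ) * m i) =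
        c ^ (∑ i ∈ s, (a i : ℤ) * m i) := by
      intro s
      induction s using Finset.induction_on with
      | empty => simp
      | insert i s hi ih => rw [prod_insert hi, sum_insert hi, ih, zpow_add₀ hc]
    rw [h2, hm', zpow_one]
  have hα0 : mono a (0 : Cn n) = 0 := by
    unfold mono
    refine prod_eq_zero (mem_univ i0) ?_
    simp [hi0]
  have hsurj : Function.Surjective (mono a) := by
    intro c
    by_cases hc : c = 0
    · exact ⟨0, by rw [hα0, hc]⟩
    · exact ⟨P c, hPα c hc⟩
  refine ⟨mono_diff a, ?_, ?_⟩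
  · obtain ⟨x, hx⟩ := hsurj 0
    obtain ⟨y, hy⟩ := hsurj 1
    exact ⟨x, y, by rw [hx, hy]; exact zero_ne_one⟩
  intro f hf hp
  have hb := pair_bounded hsurj hf hp
  -- step 1
  have step1 : ∀ z w : Cn n, mono a z ≠ 0 → mono a z = mono a w → f z = f w := by
    intro z w hz hzw
    have hzi : ∀ i, a i ≠ 0 → z i ≠ 0 := by
      intro i hi h0
      apply hz
      unfold mono
      exact prod_eq_zero (mem_univ i) (by rw [h0, zero_pow hi])
    have hwi : ∀ i, a i ≠ 0 → w i ≠ 0 := by
      intro i hi h0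
      apply hz
      rw [hzw]
      unfold mono
      exact prod_eq_zero (mem_univ i) (by rw [h0, zero_pow hi])
    obtain ⟨u, hu⟩ : ∃ u : Fin n → ℂ, u = fun i => if a i = 0 then 0 else
      Complex.log (w i / z i) := ⟨_, rfl⟩
    have hexp : ∀ i, a i ≠ 0 → Complex.exp (u i) = w i / z i := by
      intro i hi
      rw [hu]
      simp only [if_neg hi]
      exact Complex.exp_log (div_ne_zero (hwi i hi) (hzi i hi))
    have hsum : Complex.exp (∑ i, (a i : ℂ) * u i) = 1 := by
      rw [Complex.exp_sum]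
      have h1 : ∀ i, Complex.exp ((a i : ℂ) * u i) * z i ^ a i = w i ^ a i := by
        intro i
        by_cases hi : a i = 0
        · simp [hi]
        · rw [Complex.exp_nat_mul, hexp i hi, div_pow]
          exact div_mul_cancel₀ _ (pow_ne_zero _ (hzi i hi))
      have h2 : (∏ i, Complex.exp ((a i : ℂ) * u i)) * mono a z = mono a w := by
        unfold mono
        rw [← prod_mul_distrib]
        exact prod_congr rfl fun i _ => h1 i
      rw [← hzw] at h2
      exact mul_right_cancel₀ hz (by rw [h2, one_mul])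
    obtain ⟨N, hN⟩ := Complex.exp_eq_one_iff.mp hsum
    obtain ⟨v, hv⟩ : ∃ v : Fin n → ℂ, v = fun i => u i - (N : ℂ) * (2 * Real.pi * Complex.I) *
      (m i : ℂ) := ⟨_, rfl⟩
    have hv0 : ∑ i, (a i : ℂ) * v i = 0 := by
      have h1 : ∑ i, (a i : ℂ) * v i = ∑ i, (a i : ℂ) * u i -
          (N : ℂ) * (2 * Real.pi * Complex.I) * ∑ i, (a i : ℂ) * (m i : ℂ) := by
        rw [hv, mul_sum, ← sum_sub_distrib]
        exact sum_congr rfl fun i _ => by ring
      have h2 : ∑ i, (a i : ℂ) * (m i : ℂ) = 1 := by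
        exact_mod_cast congrArg (fun x : ℤ => (x : ℂ)) hm'
      rw [h1, h2, hN]
      ring
    have hvexp : ∀ i, a i ≠ 0 → Complex.exp (v i) = w i / z i := by
      intro i hi
      have h1 : v i = u i - ((N * m i : ℤ) : ℂ) * (2 * Real.pi * Complex.I) := by
        rw [hv]
        push_cast
        ring
      rw [h1, Complex.exp_sub, hexp i hi,
        Complex.exp_eq_one_iff.mpr ⟨N * m i, rfl⟩, div_one]
    let γ : ℂ → Cn n := fun s => WithLp.toLp 2 fun i =>
      if a i = 0 then z i + s * (w i - z i) else z i * Complex.exp (s * v i)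
    have hγi : ∀ s i, γ s i = if a i = 0 then z i + s * (w i - z i) else
      z i * Complex.exp (s * v i) := fun s i => rfl
    have hγ : Differentiable ℂ γ := by
      rw [differentiable_euclidean]
      intro i
      simp only [hγi]
      by_cases hi : a i = 0
      · simp only [if_pos hi]
        fun_prop
      · simp only [if_neg hi]
        fun_prop
    have hc : ∀ s, mono a (γ s) = mono a z := by
      intro s
      have h1 : ∀ i, γ s i ^ a i = Complex.exp (s * ((a i : ℂ) * v i)) * z i ^ a i := by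
        intro i
        rw [hγi]
        by_cases hi : a i = 0
        · simp [hi]
        · rw [if_neg hi, mul_pow, ← Complex.exp_nat_mul]
          rw [mul_comm]
          congr 2
          ring
      unfold mono
      rw [prod_congr rfl fun i _ => h1 i, prod_mul_distrib, ← Complex.exp_sum, ← mul_sum, hv0]
      simp
    have h1 := const_on_curve (α := mono a) hf hb hγ hc 0 1
    have e0 : γ 0 = z := by
      ext i
      rw [hγi]
      by_cases hi : a i = 0 <;> simp [hi]
    have e1 : γ 1 = w := by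
      ext i
      rw [hγi]
      by_cases hi : a i = 0
      · simp [hi]
      · rw [if_neg hi, one_mul, hvexp i hi]
        field_simp [hzi i hi]
    rw [e0, e1] at h1
    exact h1
  -- step 2
  have hfP : DifferentiableOn ℂ (fun c => f (P c)) {0}ᶜ := by
    intro c hc
    have h1 : DifferentiableAt ℂ P c := by
      rw [differentiableAt_euclidean]
      intro i
      simp only [hPi]
      exact differentiableAt_zpow.mpr (Or.inl hc)
    exact ((hf (P c)).comp c h1).differentiableWithinAt
  obtain ⟨B, hB⟩ := hb 1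
  obtain ⟨φ, hφ⟩ : ∃ φ : ℂ → ℂ, φ = Function.update (fun c => f (P c)) 0
    (limUnder (𝓝[≠] 0) (fun c => f (P c))) := ⟨_, rfl⟩
  have hφ1 : DifferentiableOn ℂ φ (Metric.ball 0 1) := by
    rw [hφ]
    refine Complex.differentiableOn_update_limUnder_of_bddAbove
      (Metric.ball_mem_nhds _ one_pos) ?_ ?_
    · exact hfP.mono fun c hc => hc.2
    · refine ⟨B, ?_⟩
      rintro _ ⟨c, ⟨hc1, hc2⟩, rfl⟩
      refine hB (P c) ?_
      rw [hPα c hc2]
      have := mem_ball_zero_iff.mp hc1
      exact this.le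
  have hφ2 : ∀ c, c ≠ 0 → φ c = f (P c) := by
    intro c hc
    rw [hφ, Function.update_of_ne hc]
  have hφd : Differentiable ℂ φ := by
    intro c
    by_cases hc : c = 0
    · rw [hc]
      exact (hφ1 0 (Metric.mem_ball_self one_pos)).differentiableAt
        (Metric.ball_mem_nhds _ one_pos)
    · have h1 := (hfP c hc).differentiableAt (isOpen_compl_singleton.mem_nhds hc)
      refine h1.congr_of_eventuallyEq ?_
      filter_upwards [isOpen_compl_singleton.mem_nhds hc] with x hx
      exact hφ2 x hx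
  refine ⟨φ, hφd.differentiableOn, fun z => ?_⟩
  have heq : ∀ z, mono a z ≠ 0 → f z = φ (mono a z) := by
    intro z hz
    rw [hφ2 _ hz]
    exact step1 z (P (mono a z)) hz (hPα _ hz).symm
  -- step 3
  obtain ⟨e, he⟩ : ∃ e : Cn n, e = WithLp.toLp 2 fun _ => 1 := ⟨_, rfl⟩
  have hei : ∀ i, e i = 1 := by
    intro i
    rw [he]
  have hcurve : Continuous fun t : ℂ => z + t • e := by fun_prop
  have ht : Tendsto (fun t : ℂ => z + t • e) (𝓝[≠] 0) (𝓝 z) := by
    have h1 : Tendsto (fun t : ℂ => z + t • e) (𝓝 0) (𝓝 (z + (0 : ℂ) • e)) :=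
      hcurve.tendsto 0
    rw [zero_smul, add_zero] at h1
    exact h1.mono_left nhdsWithin_le_nhds
  have h1 : Tendsto (fun t : ℂ => f (z + t • e)) (𝓝[≠] 0) (𝓝 (f z)) :=
    (hf.continuous.tendsto z).comp ht
  have h2 : Tendsto (fun t : ℂ => φ (mono a (z + t • e))) (𝓝[≠] 0) (𝓝 (φ (mono a z))) :=
    ((hφd.continuous.comp (mono_diff a).continuous).tendsto z).comp ht
  have h3 : ∀ᶠ t : ℂ in 𝓝[≠] 0, ∀ i, (z + t • e) i ≠ 0 := by
    rw [eventually_all]
    intro i
    have h4 : ∀ t : ℂ, (z + t • e) i = z i + t := by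
      intro t
      simp [hei]
    simp only [h4]
    by_cases hz : z i = 0
    · filter_upwards [self_mem_nhdsWithin] with t ht
      rw [hz, zero_add]
      exact ht
    · have h5 : ∀ᶠ t : ℂ in 𝓝 0, z i + t ≠ 0 := by
        have h6 : Continuous fun t : ℂ => z i + t := by fun_prop
        exact h6.continuousAt.eventually_ne (by simpa using hz)
      exact h5.filter_mono nhdsWithin_le_nhds
  refine tendsto_nhds_unique h1 (h2.congr' ?_)
  filter_upwards [h3] with t ht
  refine (heq _ ?_).symm
  unfold mono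
  exact prod_ne_zero_iff.mpr fun i _ => pow_ne_zero _ (ht i)

end Pool.Agent.Y266.LA
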