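import Pool.Agent.Y266.LA.Stm

/-!
# LA-FIRST: the first component of an automorphism is an L-atom
-/

set_option autoImplicit false

open Pool.Agent.Results.MP_cc4673_an.ProductIsLAtom

namespace Pool.Agent.Y266.LA

/-- The first component of an automorphism of `ℂⁿ` is an L-atom, for every `n`. -/
theorem first : S_FIRST := by
  rintro n f ⟨F, i, -, ⟨hFd, hFi, hFs⟩, hF⟩
  have hfd : Differentiable ℂ f := by
    have h1 : f = fun z => F z i := funext fun z => (hF z).symm
    rw [h1]
    intro z
    exact (EuclideanSpace.proj (𝕜 := ℂ) i).differentiableAt.comp z (hFd z)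
  -- the inverse map
  choose G hG using hFs
  have hGd : Differentiable ℂ G := by
    rw [← differentiableOn_univ]
    exact Pool.Agent.Helper540.differentiableOn_of_comp (E := Cn n) (F := Cn n) rfl
      isOpen_univ isOpen_univ hFd.differentiableOn hFi.injOn (g := fun z => z)
      differentiableOn_id (fun z _ => Set.mem_univ _) (fun z _ => hG z)
  have hGF : ∀ z, G (F z) = z := fun z => hFi (hG (F z))
  have hfG : ∀ w, f (G w) = w i := fun w => by rw [← hF, hG]
  have hsurj : Function.Surjective f := fun c =>
    ⟨G (c • EuclideanSpace.single i (1 : ℂ)), by rw [hfG]; simp⟩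
  refine ⟨hfd, ?_, ?_⟩
  · obtain ⟨x, hx⟩ := hsurj 0
    obtain ⟨y, hy⟩ := hsurj 1
    exact ⟨x, y, by rw [hx, hy]; exact zero_ne_one⟩
  · intro g hg hp
    have hb := pair_bounded hsurj hg hp
    have hhd : Differentiable ℂ (fun w => g (G w)) := fun w => (hg (G w)).comp w (hGd w)
    have hhb : ∀ R : ℝ, ∃ B : ℝ, ∀ w : Cn n, ‖(fun w : Cn n => w i) w‖ ≤ R → ‖g (G w)‖ ≤ B := by
      intro R
      obtain ⟨B, hB⟩ := hb R
      refine ⟨B, fun w hw => hB (G w) ?_⟩
      rw [hfG]
      exact hw
    have hline : ∀ w w' : Cn n, w i = w' i → g (G w) = g (G w') := by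
      intro w w' hww
      have hγ : Differentiable ℂ (fun t : ℂ => w + t • (w' - w)) := by
        intro t
        exact (differentiableAt_id.smul_const _).const_add _
      have h1 := const_on_curve (α := fun w : Cn n => w i) (f := fun w => g (G w)) hhd hhb hγ
        (c := w i) (by
          intro s
          simp [hww]) 0 1
      simpa using h1
    refine ⟨fun c => g (G (c • EuclideanSpace.single i (1 : ℂ))), ?_, ?_⟩
    · apply Differentiable.differentiableOn
      intro c
      exact (hhd _).comp c (differentiableAt_id.smul_const _)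
    · intro z
      have h1 := hline (F z) (f z • EuclideanSpace.single i (1 : ℂ)) (by
        rw [hF]; simp)
      rw [hGF] at h1
      exact h1

end Pool.Agent.Y266.LA
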